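import Pool.Agent.H93.EG.Targets

/-!
# Invariant functions of polygonal billiards, row A_AP: modes of the gradient
-/

set_option autoImplicit false

namespace Pool.Agent.H81.EG

open MeasureTheory Set Metric Filter Topology Pool.Agent.H93.EG
open Pool.Agent.H93.BL hiding T_B1 T_B2 T_B3 T_SB T_SC
open Pool.Agent.H93.EN

theorem md_congr_circle {g g' : ℂ → ℝ} (h : ∀ w, ‖w‖ = 1 → g w = g' w) (k : ℤ) :
    md g k = md g' k := by
  unfold md
  congr 1
  apply intervalIntegral.integral_congr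
  intro θ _
  have h1 := h (Complex.exp ((θ : ℂ) * Complex.I)) (Complex.norm_exp_ofReal_mul_I θ)
  simp only [h1]

theorem md_neg_fun (g : ℂ → ℝ) (k : ℤ) : md (fun w => -(g w)) k = -(md g k) := by
  unfold md
  rw [← mul_neg, ← intervalIntegral.integral_neg]
  congr 1
  apply intervalIntegral.integral_congr
  intro θ _
  simp only [Complex.ofReal_neg, neg_mul]

theorem N_circle (N : ℂ → ℂ → ℂ) (x w : ℂ) (hw : ‖w‖ = 1) :
    N x w = ((gN N x w : ℂ) + (hN N x w : ℂ) * Complex.I) * w := by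
  have h1 : ((gN N x w : ℂ) + (hN N x w : ℂ) * Complex.I) = N x w * (starRingEnd ℂ) w :=
    Complex.re_add_im _
  rw [h1, mul_assoc, ← Complex.normSq_eq_conj_mul_self, Complex.normSq_eq_norm_sq, hw]
  norm_num

theorem N_re (N : ℂ → ℂ → ℂ) (x w : ℂ) (hw : ‖w‖ = 1) :
    (N x w).re = w.re * gN N x w + -(w.im) * hN N x w := by
  have h := congrArg Complex.re (N_circle N x w hw)
  rw [h]
  simp only [Complex.mul_re, Complex.add_re, Complex.ofReal_re, Complex.add_im, Complex.ofReal_im,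
    Complex.mul_im, Complex.I_re, Complex.I_im]
  ring

theorem N_im (N : ℂ → ℂ → ℂ) (x w : ℂ) (hw : ‖w‖ = 1) :
    (N x w).im = -(w.im) * (-(gN N x w)) + w.re * hN N x w := by
  have h := congrArg Complex.im (N_circle N x w hw)
  rw [h]
  simp only [Complex.mul_re, Complex.add_re, Complex.ofReal_re, Complex.add_im, Complex.ofReal_im,
    Complex.mul_im, Complex.I_re, Complex.I_im]
  ring

theorem ap (h1 : Pool.Agent.H93.EN.T_B2) : T_AP := by
  intro N C hm hC x k
  have hNx : Measurable (N x) := hm.of_uncurry_left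
  have hmul : Measurable fun w : ℂ => N x w * (starRingEnd ℂ) w :=
    hNx.mul Complex.continuous_conj.measurable
  have hgm : Measurable (gN N x) := Complex.measurable_re.comp hmul
  have hhm : Measurable (hN N x) := Complex.measurable_im.comp hmul
  have hb : ∀ w : ℂ, ‖w‖ = 1 → ‖N x w * (starRingEnd ℂ) w‖ ≤ C := by
    intro w hw
    rw [norm_mul, RCLike.norm_conj, hw, mul_one]
    exact hC x w
  have hgb : ∀ w : ℂ, ‖w‖ = 1 → |gN N x w| ≤ C := fun w hw =>
    (Complex.abs_re_le_norm _).trans (hb w hw)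
  have hhb : ∀ w : ℂ, ‖w‖ = 1 → |hN N x w| ≤ C := fun w hw =>
    (Complex.abs_im_le_norm _).trans (hb w hw)
  have hrec : ∀ (g : ℂ → ℝ), (∀ w : ℂ, ‖w‖ = 1 → |g w| ≤ C) →
      ∀ w : ℂ, ‖w‖ = 1 → |w.re * g w| ≤ C := by
    intro g hg w hw
    rw [abs_mul]
    have h2 : |w.re| ≤ 1 := hw ▸ Complex.abs_re_le_norm w
    calc |w.re| * |g w| ≤ 1 * |g w| := mul_le_mul_of_nonneg_right h2 (abs_nonneg _)
      _ = |g w| := one_mul _
      _ ≤ C := hg w hw
  have himc : ∀ (g : ℂ → ℝ), (∀ w : ℂ, ‖w‖ = 1 → |g w| ≤ C) →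
      ∀ w : ℂ, ‖w‖ = 1 → |-(w.im) * g w| ≤ C := by
    intro g hg w hw
    rw [abs_mul, abs_neg]
    have h2 : |w.im| ≤ 1 := hw ▸ Complex.abs_im_le_norm w
    calc |w.im| * |g w| ≤ 1 * |g w| := mul_le_mul_of_nonneg_right h2 (abs_nonneg _)
      _ = |g w| := one_mul _
      _ ≤ C := hg w hw
  have hgm' : Measurable fun w => -(gN N x w) := hgm.neg
  have hgb' : ∀ w : ℂ, ‖w‖ = 1 → |-(gN N x w)| ≤ C := by
    intro w hw
    rw [abs_neg]
    exact hgb w hw
  -- the mode of the real part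
  have hux : ux N k x = 1 / 2 * (md (gN N x) (k - 1) + md (gN N x) (k + 1)) +
      Complex.I / 2 * (md (hN N x) (k - 1) - md (hN N x) (k + 1)) := by
    have e1 : ux N k x = md (fun w => w.re * gN N x w + -(w.im) * hN N x w) k := by
      unfold ux
      exact md_congr_circle (fun w hw => N_re N x w hw) k
    have e2 := (h1 (fun w => w.re * gN N x w) (fun w => -(w.im) * hN N x w) C
      (Complex.measurable_re.mul hgm) (Complex.measurable_im.neg.mul hhm)
      (hrec _ hgb) (himc _ hhb)).2.2.2 k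
    have e3 := (h1 (gN N x) (hN N x) C hgm hhm hgb hhb).2.2.2 k
    have e4 := (h1 (hN N x) (gN N x) C hhm hgm hhb hgb).2.2.2 k
    rw [e1, e2.2.2.1, e3.2.2.2.2, e4.2.2.2.1]
  have huy : uy N k x = -(Complex.I / 2 * (md (gN N x) (k - 1) - md (gN N x) (k + 1))) +
      1 / 2 * (md (hN N x) (k - 1) + md (hN N x) (k + 1)) := by
    have e1 : uy N k x = md (fun w => -(w.im) * (-(gN N x w)) + w.re * hN N x w) k := by
      unfold uy
      exact md_congr_circle (fun w hw => N_im N x w hw) k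
    have e2 := (h1 (fun w => -(w.im) * (-(gN N x w))) (fun w => w.re * hN N x w) C
      (Complex.measurable_im.neg.mul hgm') (Complex.measurable_re.mul hhm)
      (himc _ hgb') (hrec _ hhb)).2.2.2 k
    have e3 := (h1 (fun w => -(gN N x w)) (hN N x) C hgm' hhm hgb' hhb).2.2.2 k
    have e4 := (h1 (hN N x) (gN N x) C hhm hgm hhb hgb).2.2.2 k
    rw [e1, e2.2.2.1, e3.2.2.2.1, e4.2.2.2.2, md_neg_fun, md_neg_fun]
    ring
  have hI : Complex.I * Complex.I = -1 := Complex.I_mul_I
  constructor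
  · rw [hux, huy]
    linear_combination (-(1 / 2) * (md (gN N x) (k - 1) - md (gN N x) (k + 1))) * hI
  · rw [hux, huy]
    linear_combination ((1 / 2) * (md (gN N x) (k - 1) - md (gN N x) (k + 1))) * hI

end Pool.Agent.H81.EG
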